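import Pool.Agent.Helper36.RS.Goals
import Pool.Agent.Helper73.RF.Flow
import Pool.Agent.Helper73.RF.GoalsC
import Pool.Agent.Helper73.RF.GoalsD

/-!
# Project RF, existence part: the system for (frame, coframe, curvature operator)

Unknowns `A a i` (frame `F_a = ∑_i A a i E_i`), `θ i a` (inverse matrix), `P a b` (symmetric, the future curvature
operator `FR.N`). System: `∂_t A = S A`, `∂_t θ = - θ S`, `∂_t P = lapF P + QP P`, `S = (tr P) 1 - P`.
All expressions are polynomial in `A, θ, P` and their derivatives; `FR.Gam` etc. are in `Helper73/RF/FR.lean`.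
-/

namespace Pool.Agent.Helper36.RI

open Set Filter Topology MeasureTheory Pool.Agent.Helper36.RS Pool.Agent.Helper73.RF
open Pool.Agent.Helper47.RF hiding eps
open scoped ContDiff

section algebra

variable {𝒜 : Type} [CommRing 𝒜] [Algebra ℝ 𝒜] (E : Fin 3 → Derivation ℝ 𝒜 𝒜)
  (A θ P : Fin 3 → Fin 3 → 𝒜)

/-- trace -/
def trP : 𝒜 := ∑ c, P c c

/-- `S = (tr P) 1 - P` -/
def Sf (a b : Fin 3) : 𝒜 := (if a = b then trP P else 0) - P a b

/-- covariant derivative `(∇_c P)_{ab}` in the frame -/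
noncomputable def nab (c a b : Fin 3) : 𝒜 :=
  FR.Fd E A c (P a b) - ∑ d, FR.Gam E A θ c a d * P d b - ∑ d, FR.Gam E A θ c b d * P a d

/-- rough Laplacian `(Δ P)_{ab}` in the frame -/
noncomputable def lapF (a b : Fin 3) : 𝒜 :=
  ∑ c, (FR.Fd E A c (nab E A θ P c a b)
    - ∑ d, FR.Gam E A θ c c d * nab E A θ P d a b
    - ∑ d, FR.Gam E A θ c a d * nab E A θ P c d b
    - ∑ d, FR.Gam E A θ c b d * nab E A θ P c a d)

/-- reaction term `4 P² - 2 p P + (p² - |P|²) 1` -/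
def QP (a b : Fin 3) : 𝒜 :=
  (4 : ℝ) • ∑ c, P a c * P c b - (2 : ℝ) • (trP P * P a b)
    + if a = b then trP P ^ 2 - ∑ c, ∑ d, P c d ^ 2 else 0

/-- right side of the equation for `P` -/
noncomputable def FPf (a b : Fin 3) : 𝒜 := lapF E A θ P a b + QP P a b

/-- right side of the equation for `A` -/
def FAf (a i : Fin 3) : 𝒜 := ∑ b, Sf P a b * A b i

/-- right side of the equation for `θ` -/
def Ftf (i a : Fin 3) : 𝒜 := -∑ b, θ i b * Sf P b a

end algebra

/-- indices of `u = (A, θ)` -/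
abbrev II : Type := (Fin 3 × Fin 3) ⊕ (Fin 3 × Fin 3)

/-- position of `P a b` among the six components -/
def idx : Fin 3 → Fin 3 → Fin 6 := ![![0, 1, 2], ![1, 3, 4], ![2, 4, 5]]

/-- first and second index of a component -/
def rep1 : Fin 6 → Fin 3 := ![0, 0, 0, 1, 1, 2]

/-- first and second index of a component -/
def rep2 : Fin 6 → Fin 3 := ![0, 1, 2, 1, 2, 2]

/-- the frame -/
def uA (u : II → XS) (a i : Fin 3) : XS := u (Sum.inl (a, i))

/-- the coframe -/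
def uth (u : II → XS) (i a : Fin 3) : XS := u (Sum.inr (i, a))

/-- the symmetric matrix -/
def vP (v : Fin 6 → XS) (a b : Fin 3) : XS := v (idx a b)

/-- A solution of the system on `[0, τ]`: all entries are differentiable in all Sobolev norms, and jointly smooth
for `0 < t < τ`. -/
structure FS (τ : ℝ) (A θ P : ℝ → Fin 3 → Fin 3 → XS) : Prop where
  sym : ∀ t a b, P t a b = P t b a
  dA : ∀ a i, CD τ (fun t => A t a i) (fun t => FAf (A t) (P t) a i)
  dt : ∀ i a, CD τ (fun t => θ t i a) (fun t => Ftf (θ t) (P t) i a)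
  dP : ∀ a b, CD τ (fun t => P t a b) (fun t => FPf Ed (A t) (θ t) (P t) a b)
  jA : ∀ a i, ContDiffOn ℝ oo (fun p : ℝ × HH => (A p.1 a i).1 p.2) (Ioo 0 τ ×ˢ {0}ᶜ)
  jt : ∀ i a, ContDiffOn ℝ oo (fun p : ℝ × HH => (θ p.1 i a).1 p.2) (Ioo 0 τ ×ˢ {0}ᶜ)
  jP : ∀ a b, ContDiffOn ℝ oo (fun p : ℝ × HH => (P p.1 a b).1 p.2) (Ioo 0 τ ×ˢ {0}ᶜ)

/-- `A θ = 1` away from the quaternion `0` -/
def Inv (A θ : Fin 3 → Fin 3 → XS) : Prop :=
  ∀ x ≠ 0, ∀ a c, ∑ i, (A a i).1 x * (θ i c).1 x = if a = c then 1 else 0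

/-! ## The frame bundle side -/

variable {T : ℝ} (F : FBD T) (PP : Fin 3 → Fin 3 → F.B)

/-- `N = M - P` on the bundle -/
def Nb (i j : Fin 3) : F.B := F.M i j - PP i j

/-- `B_j = ∑ H_i P_ij` on the bundle -/
def Bb (j : Fin 3) : F.B := ∑ i, F.H i (PP i j)

/-- hypotheses on `P` on the bundle: symmetric, a tensor, `S = (tr P) 1 - P`, evolution -/
structure PH : Prop where
  full : F.Full
  sym : ∀ i j, PP i j = PP j i
  ten : ∀ k i j, F.V k (PP i j) = ∑ a, (eps k i a • PP a j + eps k j a • PP i a)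
  S : ∀ i j, F.S i j = Sf PP i j
  D : ∀ i j, F.D (PP i j) = F.Lap (PP i j) + QP PP i j

/-- `Z_j(N)` -/
def Zb (j : Fin 3) : F.B :=
  ∑ a, ∑ b, Nb F PP a b * F.H j (PP a b) - ∑ i, Nb F PP j i * Bb F PP i
    - ∑ a, ∑ b, Nb F PP a b * F.H a (PP b j) + trP (Nb F PP) * Bb F PP j
    + ∑ a, Nb F PP j a * F.H a (trP PP) - trP (Nb F PP) * F.H j (trP PP)

end Pool.Agent.Helper36.RI
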