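import Pool.Agent.Helper36.RI.Base

/-!
# Project RF, existence part: from the system to the Ricci flow, statements of the parts

Read `RI/Base.lean`. The identities of CON were verified by exact computer algebra. In the packets about `FBD`, `BA`,
`baC` the proved statements of `Helper73/RF/GoalsA, GoalsC, GoalsD` may be assumed as hypotheses (write them as
hypotheses of your theorem if they are not in the goal and tell helper36).
-/

namespace Pool.Agent.Helper36.RI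

open Set Filter Topology MeasureTheory Pool.Agent.Helper36.RS Pool.Agent.Helper73.RF
open Pool.Agent.Helper47.RF hiding eps
open scoped ContDiff

/-! ## Named conclusions -/

/-- conclusion of CV -/
def R_CV : Prop := ∀ (τ : ℝ) (y y' : ℝ → XS), CD τ y y' →
  SmFam1 (Icc 0 τ) (fun t => (y t).1) (fun t => (y' t).1)

/-- conclusion of JQ -/
def R_JQ : Prop := ∀ (I J : Type) [Fintype I] [Fintype J] (D : QLD I J) (τ : ℝ)
  (u : ℝ → I → XS) (v : ℝ → J → XS),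
  (∀ i, CD τ (fun t => u t i) (fun t => D.FI (u t) (v t) i)) →
  (∀ j, CD τ (fun t => v t j) (fun t => D.FJ (u t) (v t) j)) →
  (∀ i, ContDiffOn ℝ oo (fun p : ℝ × HH => (u p.1 i).1 p.2) (Ioo 0 τ ×ˢ {0}ᶜ)) ∧
  (∀ j, ContDiffOn ℝ oo (fun p : ℝ × HH => (v p.1 j).1 p.2) (Ioo 0 τ ×ˢ {0}ᶜ))

/-- existence of framed solutions -/
def R_FRL : Prop := ∀ A0 θ0 P0 : Fin 3 → Fin 3 → XS, Inv A0 θ0 → (∀ a b, P0 a b = P0 b a) →
  ∃ τ > 0, ∃ A θ P : ℝ → Fin 3 → Fin 3 → XS, FS τ A θ P ∧ A 0 = A0 ∧ θ 0 = θ0 ∧ P 0 = P0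

/-- the coframe stays the inverse of the frame -/
def R_IVV : Prop := ∀ (τ : ℝ) (A θ P : ℝ → Fin 3 → Fin 3 → XS), FS τ A θ P → Inv (A 0) (θ 0) →
  ∀ t ∈ Icc 0 τ, Inv (A t) (θ t)

/-- the bundle structure is full (first part of `YomStmt`) -/
def R_FUL : Prop := ∀ (T : ℝ) (P : BA T), P.Ax → ∀ A θ S0 : Fin 3 → Fin 3 → P.B, P.FH A θ S0 →
  (P.toFBD A θ S0).Full

/-- symmetry of the curvature operator and second Bianchi identity -/
def R_BIZ : Prop := ∀ A θ : Fin 3 → Fin 3 → XS, Inv A θ →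
  (∀ l k, ∀ x ≠ 0, (FR.N Ed A θ l k).1 x = (FR.N Ed A θ k l).1 x) ∧
  ∀ j, ∀ x ≠ 0, (∑ i, nab Ed A θ (FR.N Ed A θ) i i j : XS).1 x = 0

/-- `P` stays the curvature operator -/
def R_CQ : Prop := ∀ (τ : ℝ) (A θ P : ℝ → Fin 3 → Fin 3 → XS), 0 < τ → FS τ A θ P →
  (∀ t ∈ Icc 0 τ, Inv (A t) (θ t)) →
  (∀ a b, ∀ x ≠ 0, (P 0 a b).1 x = (FR.N Ed (A 0) (θ 0) a b).1 x) →
  ∀ t ∈ Icc 0 τ, ∀ a b, ∀ x ≠ 0, (P t a b).1 x = (FR.N Ed (A t) (θ t) a b).1 x

/-- Ricci tensor in the frame -/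
def R_RIC : Prop := ∀ (A θ : MF) (h : Frm A θ), ∀ x ≠ 0, ∀ a b,
  RicF A θ x a b = (FR.Ricf Ed (fun a i => (⟨fun y => A y a i, h.smA a i⟩ : XS))
    (fun i a => (⟨fun y => θ y i a, h.smt i a⟩ : XS)) a b).1 x

/-! ## Packets -/

/-- INS: the system is a mixed system `QLD`. PROOF. In the variables `X (inl (c, i))` (for `A c i`), `X (inr (i, c))`
(for `θ i c`), `X j` (for `P`): `G` is `FAf`, `Ftf`. `α i k = ∑_c A c i A c k`. All structure functions
`FR.C Ed A θ a b c` and hence `FR.Gam` are polynomials in the jet `(u, Eu)` (`Ed i (A b j)` is a variable of the jet).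
`nab c a b = ∑_j A c j Ed j (P a b) - ∑ Gam P - ∑ Gam P`. With `V i = ∑_c A c i * nab c a b = ∑_k α i k Ed k (P a b) +
β`, `β i = - ∑_c A c i (∑_d Gam c a d P d b + ∑_d Gam c b d P a d)`, Leibniz gives
`∑_c Fd c (nab c a b) = ∑_i Ed i (V i) - ∑_{c,i} Ed i (A c i) * nab c a b`, and the last sum and the `Gam * nab` terms of
`lapF` and `QP` are polynomials in the jet `(u, Eu, v, Ev)`: `W`. Component `j` has `a = rep1 j`, `b = rep2 j`.
(Suggestion: call `g : (I → XS) → (J → XS) → XS` polynomial in the jet if `∃ p, ∀ u v, g u v = aeval (zj' u v) p`, show that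
this is closed under sums, products, real multiples and contains the variables; the same for `zj`; then choose `β`,
`W` by `Classical.choice`/`choose`.) Last claim: `∑_{i,k} (∑_c A c i A c k) ξ_i ξ_k = ∑_c (∑_i A c i ξ_i)²`. -/
def G_INS : Prop := ∃ D : QLD II (Fin 6),
  (∀ u v a i, D.FI u v (Sum.inl (a, i)) = FAf (uA u) (vP v) a i) ∧
  (∀ u v i a, D.FI u v (Sum.inr (i, a)) = Ftf (uth u) (vP v) i a) ∧
  (∀ u v j, D.FJ u v j = FPf Ed (uA u) (uth u) (vP v) (rep1 j) (rep2 j)) ∧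
  (∀ (u : II → XS) (x : HH) (ξ : Fin 3 → ℝ),
    ∑ i, ∑ k, (MvPolynomial.aeval u (D.α i k) : XS).1 x * ξ i * ξ k =
      ∑ c, (∑ i, (uA u c i).1 x * ξ i) ^ 2)

/-- FRL: existence of framed solutions, assuming the local existence theorem for mixed systems, INS and JQ.
PROOF. Ellipticity near `A0`: `M = sup |θ0|` over the sphere (compact, `Goal_C4`/continuity); for `x ≠ 0`,
`ξ = (θ0 A0)ᵀ..`: from `A0 θ0 = 1` (so also `θ0 A0 = 1`), `ξ_j = ∑_c (∑_i A0 c i ξ_i) θ0 j c`, so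
`|ξ| ≤ 3 M' |A0 ξ|`; if `|A - A0| ≤ ρ` entrywise then `|A ξ| ≥ |A0 ξ| - 3 ρ |ξ|`, so for small `ρ`,
`∑_c (∑_i A c i ξ_i)² ≥ lam |ξ|²` with some `lam > 0`. Start vector: `u0 = (A0, θ0)`, `v0 j = P0 (rep1 j) (rep2 j)`.
`P t a b = vP (v t) a b` is symmetric (`idx` is symmetric), `FPf` of a symmetric `P` is symmetric in `a, b`, so the
equation holds for all `a, b` (`(rep1, rep2) (idx a b)` is `(a, b)` or `(b, a)`). Joint smoothness from the hypothesis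
`R_JQ`. -/
def G_FRL : Prop := G_QL → G_INS → R_JQ → R_FRL

/-- IVV: the coframe stays the inverse of the frame, assuming CV. PROOF. For fixed `x ≠ 0` let `X = A θ` (3x3 matrix
of `t`). `X' = S A θ - A θ S = S (X - 1) - (X - 1) S`, `X(0) = 1`; `|X - 1|²` has derivative `≤ C |X - 1|²` on `[0, τ]`
(`S` is bounded there), Gronwall (`eq_zero_of_abs_deriv_le_mul_abs_self_of_eq_zero_right`, or
`ODE_solution_unique`). Pointwise derivatives from `CV` (`SmFam1.der` with the empty word). -/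
def G_IVV : Prop := R_CV → R_IVV

/-- CON: the constraint equations on the frame bundle (pure algebra; verified by exact computer algebra).
PROOF. Write `m = tr M`, `p = tr P`, `n = tr N`, `σ = tr S = 2 p`. First formula. `Full.DM`:
`D M_lj = (σ M - S M)_lj + eps_abl H_a Y_bj`, `Y_bj = eps_jcd H_c S_bd`; expanding `eps_lab eps_jcd` as a determinant,
`eps_abl eps_jcd H_a H_c S_bd = - Lap S_lj + H_a H_l S_aj + H_j H_b S_bl - H_j H_l σ + δ_lj (Lap σ - H_a H_c S_ac)`. With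
`S = p 1 - P`: `= Lap P_lj - H_a H_l P_aj - H_j H_b P_bl + δ_lj H_a H_c P_ac`. Here `H_b P_bl = B_l`,
`H_a H_l P_aj = H_l B_j + [H_a, H_l] P_aj = H_l B_j + eps_alk M_km V_m P_aj` (`Full.HH`), and with `ten`,
`eps_alk M_km V_m P_aj = - 2 (M P)_lj - (P M)_lj + 2 m P_lj + p M_lj + (<M,P> - m p) δ_lj`. So
`D M = Lap P - H_l B_j - H_j B_l + δ H_a B_a + 2 M P + 2 P M - 2 m P + (m p - <M,P>) δ`; subtract `PH.D`
(`M = N + P`). Second formula. `D B_j = H_i (D P_ij) + S_ic H_c P_ij + Y_ik V_k P_ij` (`DHY`).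
`H_i Lap P_ij = Lap B_j + [H_i, H_a] H_a P_ij + H_a ([H_i, H_a] P_ij)`, `[H_i, H_a] = eps_iak M_km V_m`,
`V_m H_a P_ij = eps_mab H_b P_ij + H_a V_m P_ij`. With `Z_j(M) = eps_iak M_km eps_mjb H_a P_ib =
<M, H_j P> - M_ji B_i - M_ab H_a P_bj + m B_j + M_ja H_a p - m H_j p` and `H_a M_ab = 0` (bianchi):
`H_i Lap P_ij = Lap B_j + 2 Z_j(M) + m B_j - M_ka H_a P_kj + 2 (H_b m) P_bj + <H_j M, P> - (H_b M_ji) P_ib - (H_j m) p`.
`H_i QP_ij = 4 P_jk B_k + 4 P_ik H_i P_kj - 2 P_ij H_i p - 2 p B_j + 2 p H_j p - 2 <P, H_j P>`.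
`S_ic H_c P_ij = p B_j - P_ic H_c P_ij`.
`Y_ik V_k P_ij = - 2 (H_d p) P_dj - P_jd B_d + p H_j p - <P, H_j P> + P_id H_d P_ij`. Put `M = P + N` and add: all terms
without `N` and without `B` cancel, the `B` terms give `P_ji B_i + 2 p B_j`. (All sums over `Fin 3`; with
`Fin.sum_univ_three`, `simp [eps]`, `fin_cases`, `linear_combination` in the commutative ring `F.B` after the
commutation relations are used to rewrite the third derivatives.) Third: `V` of `N` and of `B`. -/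
def G_CON : Prop := ∀ (T : ℝ) (F : FBD T) (PP : Fin 3 → Fin 3 → F.B), PH F PP →
  (∀ l j, F.D (Nb F PP l j) = - F.H l (Bb F PP j) - F.H j (Bb F PP l)
    + (if l = j then ∑ a, F.H a (Bb F PP a) else 0)
    + (2 : ℝ) • ∑ c, (Nb F PP l c * PP c j + PP l c * Nb F PP c j)
    - (2 : ℝ) • (trP (Nb F PP) * PP l j)
    + (if l = j then trP (Nb F PP) * trP PP - ∑ c, ∑ d, Nb F PP c d * PP c d else 0)) ∧
  (∀ j, F.D (Bb F PP j) = F.Lap (Bb F PP j) + ∑ i, PP j i * Bb F PP i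
    + (2 : ℝ) • (trP PP * Bb F PP j) + (2 : ℝ) • Zb F PP j + trP (Nb F PP) * Bb F PP j
    - ∑ k, ∑ a, Nb F PP k a * F.H a (PP k j)
    + (2 : ℝ) • ∑ b, F.H b (trP (Nb F PP)) * PP b j
    + ∑ a, ∑ b, F.H j (Nb F PP a b) * PP a b
    - ∑ b, ∑ i, F.H b (Nb F PP j i) * PP i b - F.H j (trP (Nb F PP)) * trP PP) ∧
  (∀ k i j, F.V k (Nb F PP i j) = ∑ a, (eps k i a • Nb F PP a j + eps k j a • Nb F PP i a)) ∧
  (∀ k j, F.V k (Bb F PP j) = ∑ a, eps k j a • Bb F PP a)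

/-- LNK: the covariant derivative and the Laplacian on the bundle, assuming FRA (`FraStmt`, proved).
`P` a symmetric matrix of functions of `(x,t)`; `PP i j = ∑ R_ia R_jb P_ab`.
PROOF. `H_c = ∑_e R_ce L_e`, `L_e = ∑ A_ei E_i + ∑ om_ek U_k`; `L_e R_ia = ∑_k om_ek eps_kad R_id = ∑_d Gam_ead R_id` (`UR`,
`ER`, FRA), `Gam_ead = - Gam_eda`, `L_e P_ab = F_e P_ab` (`P` is `XT`). So `H_c PP_ij = ∑ R_ce R_ia R_jb nab_eab`.
Apply `H_c` again and sum over `c`, `∑_c R_ce R_cf = δ_ef` (`RtR`): the four terms of `lapF`. The `nab_eab` are `XT`.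
`V_k PP_ij`: `VR`. `D PP_ij = ∑ R_ia R_jb Dt P_ab` (`DR`). `QP` is equivariant under rotations:
`∑ R_ia R_jb QP(P)_ab = QP(PP)_ij` (`RRt`, `RtR`). `toFBD.S`: `∑ R_ac R_bd S0_cd` with `S0 = Sf P`. -/
def G_LNK : Prop := FraStmt → ∀ (T : ℝ) (Q : BA T), Q.Ax → ∀ A θ P : Fin 3 → Fin 3 → Q.B,
  (∀ a b, P a b = P b a) → (∀ a b, Q.XT (P a b)) → Q.FH A θ (Sf P) →
  (∀ a b, Q.Dt (P a b) = FPf Q.E A θ P a b) → (Q.toFBD A θ (Sf P)).Full →
  PH (Q.toFBD A θ (Sf P)) (fun i j => ∑ a, ∑ b, Q.R i a * Q.R j b * P a b) ∧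
  (∀ c i j, (Q.toFBD A θ (Sf P)).H c (∑ a, ∑ b, Q.R i a * Q.R j b * P a b) =
    ∑ e, ∑ a, ∑ b, Q.R c e * Q.R i a * Q.R j b * nab Q.E A θ P e a b) ∧
  (∀ c a b, Q.XT (nab Q.E A θ P c a b))

/-- ENB: the energy argument. All functions are given for `t ∈ (0, τ)`; `n` (indices `ν`), `b` (indices `μ`), `G`
(indices `Fin 3 × μ`), and bounded coefficients. Then `n = b = 0`.
PROOF. `e t = ∑ integ (n_i²) + ∑ integ (b_j²)` is differentiable on `(0, τ)` (differentiation under the integral: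
joint continuity of the functions and their time derivatives on compact sets), with
`e' = 2 ∑ integ (n_i ∂_t n_i) + 2 ∑ integ (b_j ∂_t b_j)`. `integ (b_j A_ai E_i G_aj) = - integ (A_ai E_i b_j G_aj)
- integ (b_j (E_i A_ai) G_aj)` (`Goal_C4`, integration by parts) and `∑_i A_ai E_i b_j = G_aj - ∑ c7 b`; so the main
term is `≤ - ∑ |G|² + C |b| |G|`. `integ (b_j c6 E_i n_k) = - integ (E_i (b_j c6) n_k)`, `E_i b_j = ∑_a θ_ia (G_aj - ∑ c7 b)`
(`θ A = 1`): `≤ C (|G| + |b|) |n|`. All other terms are `≤ C (|n| + |b|)(|n| + |b| + |G|)`. So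
`e' ≤ - |G|² + C' (|n|² + |b|²) ≤ C' e`. With `e t → 0` as `t → 0+`: `e = 0` on `(0, τ)`. Continuity in `x`: `n = b = 0`
for `x ≠ 0`. (`|.|` = `L²` norms on the ball.) -/
def G_ENB : Prop := ∀ (ν μ : Type) [Fintype ν] [Fintype μ] (τ K : ℝ)
  (n n' : ν → ℝ → XS) (b b' : μ → ℝ → XS) (G : Fin 3 → μ → ℝ → XS)
  (A θ : Fin 3 → Fin 3 → ℝ → XS)
  (c1 : ν → Fin 3 → μ → ℝ → XS) (c2 : ν → ν → ℝ → XS) (c3 : μ → Fin 3 → μ → ℝ → XS)
  (c4 : μ → μ → ℝ → XS) (c5 : μ → ν → ℝ → XS) (c6 : μ → Fin 3 → ν → ℝ → XS)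
  (c7 : Fin 3 → μ → μ → ℝ → XS),
  (∀ i, ContinuousOn (fun p : ℝ × HH => (n i p.1).1 p.2) (Ioo 0 τ ×ˢ {0}ᶜ)) →
  (∀ i, ContinuousOn (fun p : ℝ × HH => (n' i p.1).1 p.2) (Ioo 0 τ ×ˢ {0}ᶜ)) →
  (∀ i, ContinuousOn (fun p : ℝ × HH => (b i p.1).1 p.2) (Ioo 0 τ ×ˢ {0}ᶜ)) →
  (∀ i, ContinuousOn (fun p : ℝ × HH => (b' i p.1).1 p.2) (Ioo 0 τ ×ˢ {0}ᶜ)) →
  (∀ i, ∀ t ∈ Ioo 0 τ, ∀ x ≠ 0, HasDerivAt (fun s => (n i s).1 x) ((n' i t).1 x) t) →
  (∀ i, ∀ t ∈ Ioo 0 τ, ∀ x ≠ 0, HasDerivAt (fun s => (b i s).1 x) ((b' i t).1 x) t) →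
  (∀ t ∈ Ioo 0 τ, ∀ x ≠ 0,
    (∀ i, (n' i t).1 x = ∑ a, ∑ j, (c1 i a j t).1 x * (G a j t).1 x +
      ∑ k, (c2 i k t).1 x * (n k t).1 x) ∧
    (∀ j, (b' j t).1 x = ∑ a, ∑ i, (A a i t).1 x * E i (G a j t).1 x +
      ∑ a, ∑ k, (c3 j a k t).1 x * (G a k t).1 x + ∑ k, (c4 j k t).1 x * (b k t).1 x +
      ∑ k, (c5 j k t).1 x * (n k t).1 x + ∑ i, ∑ k, (c6 j i k t).1 x * E i (n k t).1 x) ∧
    (∀ a j, (G a j t).1 x = ∑ i, (A a i t).1 x * E i (b j t).1 x +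
      ∑ k, (c7 a j k t).1 x * (b k t).1 x) ∧
    (∀ i j, ∑ a, (θ i a t).1 x * (A a j t).1 x = if i = j then 1 else 0) ∧
    (∀ a i k, |(A a i t).1 x| ≤ K ∧ |E k (A a i t).1 x| ≤ K ∧ |(θ i a t).1 x| ≤ K) ∧
    (∀ i a j, |(c1 i a j t).1 x| ≤ K) ∧ (∀ i k, |(c2 i k t).1 x| ≤ K) ∧
    (∀ j a k, |(c3 j a k t).1 x| ≤ K) ∧ (∀ j k, |(c4 j k t).1 x| ≤ K) ∧
    (∀ j k, |(c5 j k t).1 x| ≤ K) ∧ (∀ j i k l, |(c6 j i k t).1 x| ≤ K ∧
      |E l (c6 j i k t).1 x| ≤ K) ∧ (∀ a j k, |(c7 a j k t).1 x| ≤ K)) →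
  (∀ δ > 0, ∃ η > 0, ∀ t ∈ Ioo 0 τ, t < η → ∀ x ≠ 0, (∀ i, |(n i t).1 x| ≤ δ) ∧
    ∀ j, |(b j t).1 x| ≤ δ) →
  ∀ t ∈ Ioo 0 τ, ∀ x ≠ 0, (∀ i, (n i t).1 x = 0) ∧ ∀ j, (b j t).1 x = 0

/-- BIZ: symmetry of `N` and second Bianchi identity in a fixed frame, assuming the stated proved facts.
PROOF. `θ A = 1` for `x ≠ 0` (one-sided inverse of a square matrix). Let `T = 1` and consider the constant families
`t ↦ A a i`, `t ↦ θ i a` (`JS 1`), `Q = baC 1` (`DaxStmt`), `S0 = 0`; elements of `(baC 1).B` are functions on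
`{x ≠ 0}`, so `FH` holds exactly (`Dt` of a constant family is `0`, `D6Stmt`), and `F = toFBD A θ 0` is `Full`. With
`P = FR.N` over `Q.B`, which is `XT` and symmetric (`NSY`; its hypothesis: test with `Q.X`, as for `ind` in INSA; or take
`Full.Msymm`), the proof of LNK gives `H_c M_ij = ∑ R_ce R_ia R_jb nab_eab` (only `XT`, symmetry and FRA are used), so
`bianchi` gives `∑_i nab i i j = 0` at `q = 1` (`D6Stmt`: `at1`). The map `XS → (baC 1).B`, `f ↦ emb` of the constant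
family, is an algebra homomorphism commuting with the `E i`, so `FR.N`, `FR.Gam`, `nab` correspond (`NatStmt`, or unfold
and `map_sum` etc.), and `at1` of the image of `f` is `f`. -/
def G_BIZ : Prop := FraStmt → NatStmt → NsyStmt → DaxStmt → D6Stmt → R_FUL → R_BIZ

/-- AT1: restriction of the horizontal derivative to `q = 1`. PROOF. `H_a = ∑_b R_ab (∑_i A_bi E_i + ∑_k om_bk U_k)`; `at1`
is additive and multiplicative, `at1 R_ab = δ_ab`, `at1 (E_i f) = E_i (at1 f)`, `at1 (U_k f) = - at1 (V_k f)` (all in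
`D6Stmt`). -/
def G_AT1 : Prop := D6Stmt → ∀ (T : ℝ) (A θ S0 : Fin 3 → Fin 3 → (baC T).B) (f : (baC T).B)
  (a : Fin 3) (t : ℝ) (x : HH), 0 < t → t < T → x ≠ 0 →
  at1 (((baC T).toFBD A θ S0).H a f) t x = ∑ i, at1 (A a i) t x * E i (at1 f t) x -
    ∑ k, at1 (FR.om (baC T).E A θ a k) t x * at1 ((baC T).V k f) t x

/-- NTX: the formulas of the moving frame over `(baC T).B` and over `XS` at time `t`. PROOF. `at1` is additive,
multiplicative, `at1 (emb u) = u`, `at1 (E_i f) = E_i (at1 f)` for `x ≠ 0` (`D6Stmt`); unfold `C`, `Gam`, `om`, `Om`, `N`,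
`nab`. (For nested derivatives: two functions that agree for `x ≠ 0` have the same `E_i` for `x ≠ 0`.) Convenient: the
relation `rel f g := ∀ x ≠ 0, at1 f t x = g.1 x` between `f ∈ (baC T).B` and `g ∈ XS` (fixed `t ∈ (0, T)`) is compatible
with sums, products, real multiples and `E_i`. -/
def G_NTX : Prop := D6Stmt → ∀ (T : ℝ) (A θ P : ℝ → Fin 3 → Fin 3 → XS)
  (hA : ∀ a i, JS T (fun t => (A t a i).1)) (ht : ∀ i a, JS T (fun t => (θ t i a).1))
  (hP : ∀ a b, JS T (fun t => (P t a b).1)) (t : ℝ) (x : HH), 0 < t → t < T → x ≠ 0 →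
  (∀ a k, at1 (FR.om (baC T).E (fun a i => emb _ (hA a i)) (fun i a => emb _ (ht i a)) a k) t x =
    (FR.om Ed (A t) (θ t) a k).1 x) ∧
  (∀ a b c, at1 (FR.Gam (baC T).E (fun a i => emb _ (hA a i)) (fun i a => emb _ (ht i a)) a b c) t x
    = (FR.Gam Ed (A t) (θ t) a b c).1 x) ∧
  (∀ l k, at1 (FR.N (baC T).E (fun a i => emb _ (hA a i)) (fun i a => emb _ (ht i a)) l k) t x =
    (FR.N Ed (A t) (θ t) l k).1 x) ∧
  (∀ c a b, at1 (nab (baC T).E (fun a i => emb _ (hA a i)) (fun i a => emb _ (ht i a))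
    (fun a b => emb _ (hP a b)) c a b) t x = (nab Ed (A t) (θ t) (P t) c a b).1 x) ∧
  (∀ a b, at1 (FPf (baC T).E (fun a i => emb _ (hA a i)) (fun i a => emb _ (ht i a))
    (fun a b => emb _ (hP a b)) a b) t x = (FPf Ed (A t) (θ t) (P t) a b).1 x)

/-- CQ: the constraint equations on the sphere: `N = FR.N - P` and `B_j = ∑ nab i i j` satisfy the equations of ENB,
hence vanish; so `FR.N = P`. Assumes the stated facts.
PROOF. For `0 < t < τ` the entries of `A, θ, P` are jointly smooth (`FS`), so they give elements of `(baC τ).B`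
(`emb`), and by `DaxStmt`, `D6Stmt`, `R_FUL`, LNK and CON apply on the bundle (`FH`: `At`, `tA` from
`Inv`; `XT` by `D6Stmt`; `DA` and `Dt P` from the time derivatives (`CV`)). Restrict to `q = 1` (`at1`): for
`f ∈ B`: `at1 (H_a f) = ∑_i A_ai E_i (at1 f) - ∑_k om_ak at1 (V_k f)` (`R = 1` and `U_k f = - V_k f` at `q = 1`). With
`n_ij = at1 (Nb i j) = FR.N_ij - P_ij` (naturality `NatStmt` between `XS` at time `t` and `B`), `b_j = at1 (Bb j) =
∑_i nab i i j`, `G_aj = at1 (H_a (Bb j))`: by CON (last two parts: `V_k` of `Nb`, `Bb`; `V_k H_a f = H_a V_k f +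
∑ eps_kab H_b f`) the equations of ENB hold with coefficients polynomial in `A, θ, P, om, nab` (all bounded on
the interval, with their `E`-derivatives, since `A, θ, P` are bounded in all Sobolev norms, SOB). Initial values: by BIZ and
`P 0 = FR.N`, `n` and `b` vanish at `t = 0` and are continuous there (they are polynomials in the word derivatives of
`A, θ, P`, which are continuous families on `[0, τ]`). ENB gives `n = 0` on `(0, τ)`, and for `t = 0, τ` by continuity. -/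
def G_CQ : Prop := G_SOB → R_CV → FraStmt → DaxStmt → D6Stmt → R_FUL → G_LNK → G_CON →
  G_AT1 → G_NTX → G_ENB → R_BIZ → R_CQ

/-- RIC: the Ricci tensor of Core in the frame, assuming FRA, LCR, GEO (proved) and R_BIZ.
PROOF. `A, θ` as elements of `XS`, `FrameHyp Ed A θ` (`RS.comm`; the two `eps` agree: 27 cases; `At`, `tA` from
`Frm.inv`, which holds for all `x`). `FR.g θ i j` is `gOf θ` (entries), `FR.gi` is the inverse matrix of `gOf θ`
(`A θ = θ A = 1`), `FR.KL = GamL`, `FR.KE = Gam`, `FR.RE = Rup` (unfold; `Ed_val`). So by the third part of GEO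
`RicF A θ x a b = ∑ A_ai A_bj ∑_p Rup p i j p = δ_ab tr N - N_ba`, and `N_ba = N_ab` for `x ≠ 0` by R_BIZ. -/
def G_RIC : Prop := FraStmt → LcrStmt → GeoStmt → R_BIZ → R_RIC

/-- LEX: local existence of framed Ricci flows, from the parts above.
PROOF. `A0, θ0` of `Frm` as elements of `XS`, `P0 = FR.N Ed A0 θ0` (symmetrize, `P0 a b = FR.N (min a b) (max a b)`; equal to `FR.N` for `x ≠ 0` by R_BIZ), FRL, IVV, CQ. Define `A t x` for `x ≠ 0` by the solution and `1` for `x = 0`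
(the same for `θ`): `Sm` and `SmFam1` do not see `x = 0` (`Ew w` at `x ≠ 0` is local), so `SmFam1` by `CV`;
`S = p 1 - P = FR.Ricf` for `x ≠ 0`, RIC (its right side is also local: `Ew`-derivatives at `x ≠ 0` only). -/
def G_LEX : Prop := R_CV → R_FRL → R_IVV → R_BIZ → R_CQ → R_RIC → LocExStmt

/-- HEX: the heat equation along a framed flow, from the linear theorem `G_LIN` and CV.
PROOF. `(gOf (θ t) x)⁻¹ = A(t,x)ᵀ A(t,x)`, so `LapC g u = ∑ a_ij E_i E_j u + ∑ b_k E_k u`, `a_ij = ∑_c A_ci A_cj`,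
`b_k = - ∑_ij a_ij Gam g i j k`. These are smooth families on `[0, τ]` (`Goal_C8`, `Goal_C10`), as elements of `XS` for
`t ∈ [0, τ]` (`0` otherwise). Ellipticity: `∑ a_ij ξ_i ξ_j = |A ξ|²`, `|ξ| ≤ 3 sup |θ| |A ξ|`, `θ` is bounded on the compact
set `[0, τ] × sphere`. Take `u t = (y t).1`. -/
def G_HEX : Prop := G_LIN → R_CV → HeatExStmt

end Pool.Agent.Helper36.RI
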