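import Pool.Agent.Helper36.RI.MainOf
import Pool.Agent.Helper14.RS.LAS

/-!
# Project RF, existence part: the heat equation along a framed flow
-/

namespace Pool.Agent.Helper36.RI

open Pool.Agent.Helper73.RF Pool.Agent.Helper36.RS

theorem lin : G_LIN := lin_of Helper14.RS.las

theorem heatEx : HeatExStmt := heatEx_of Helper14.RS.las

end Pool.Agent.Helper36.RI
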