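import Pool.Agent.Helper36.RI.Heat
import Pool.Agent.Helper50.RI.CQ

/-!
# Project RF, existence part: local existence of framed Ricci flows on `S³`
-/

namespace Pool.Agent.Helper36.RI

open Pool.Agent.Helper73.RF Pool.Agent.Helper36.RS

theorem locEx : LocExStmt := locEx_of Helper50.RI.cq

end Pool.Agent.Helper36.RI
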