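import Pool.Agent.Helper36.RS.Main
import Pool.Agent.Helper16.RI.FRL
import Pool.Agent.Helper2.RI.INS
import Pool.Agent.Helper34.RI.AT1
import Pool.Agent.Helper69.RI.LEX
import Pool.Agent.Helper73.RI.NTX
import Pool.Agent.Helper79.RI.Constr
import Pool.Agent.Helper38.RI.LNK
import Pool.Agent.Helper65.RI.IVV
import Pool.Agent.Helper70.RI.BIZ
import Pool.Agent.Helper26.RI.RIC
import Pool.Agent.Helper74.RI.ENB
import Pool.Agent.Helper27.RI.HEX
import Pool.Agent.Helper27.RF.FRA
import Pool.Agent.Helper27.RF.ALG1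
import Pool.Agent.Helper59.RF.ALG2
import Pool.Agent.Helper54.RF.LCR
import Pool.Agent.Helper9.RF.GEO
import Pool.Agent.Helper61.RF.NAT
import Pool.Agent.Helper83.RF.NSY
import Pool.Agent.Helper69.RF.DAX
import Pool.Agent.Helper38.RF.D1
import Pool.Agent.Helper62.RF.D2
import Pool.Agent.Helper32.RF.D3
import Pool.Agent.Helper57.RF.D4
import Pool.Agent.Helper75.RF.D5
import Pool.Agent.Helper60.RF.D6
import Pool.Agent.Helper62.RF.YOM
import Pool.Agent.Helper93.RF.INSA
import Pool.Agent.Helper67.RF.INSB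

/-!
# Project RF, existence part: assembly
-/

namespace Pool.Agent.Helper36.RI

open Pool.Agent.Helper73.RF Pool.Agent.Helper36.RS

theorem fra : FraStmt := Helper27.RF.fra
theorem lcr : LcrStmt := Helper54.RF.lcr
theorem geo : GeoStmt := Helper9.RF.geo fra lcr
theorem nat : NatStmt := Helper61.RF.nat
theorem nsy : NsyStmt := Helper83.RF.nsy fra
theorem dax : DaxStmt :=
  Helper69.RF.dax Helper38.RF.d1 Helper62.RF.d2 Helper32.RF.d3 Helper57.RF.d4 Helper75.RF.d5
theorem d6 : D6Stmt := Helper60.RF.d6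
theorem yom : YomStmt := Helper62.RF.yom Helper27.RF.alg1 Helper59.RF.alg2
  (Pool.Agent.Helper93.RF.insa (Helper67.RF.insb fra))

theorem r_ful : R_FUL := fun T P hP A θ S0 hF => (yom T P hP A θ S0 hF).1

theorem r_biz : R_BIZ := Helper70.RI.biz fra nat nsy dax d6 r_ful

theorem r_ric : R_RIC := Helper26.RI.ric fra lcr geo r_biz

theorem r_frl : R_FRL := Helper16.RI.frl ql Helper2.RI.ins r_jq

theorem r_ivv : R_IVV := Helper65.RI.goal_IVV r_cv

theorem r_cq_of (h : G_CQ) : R_CQ :=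
  h sob r_cv fra dax d6 r_ful Helper38.RI.lnk Helper79.RI.con Helper34.RI.AT1
    Helper73.RI.ntx Helper74.RI.enb r_biz

theorem locEx_of (h : G_CQ) : LocExStmt :=
  Helper69.RI.lex r_cv r_frl r_ivv r_biz (r_cq_of h) r_ric

theorem heatEx_of (h : G_LAS) : HeatExStmt := Helper27.RI.hex (lin_of h) r_cv

end Pool.Agent.Helper36.RI
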